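import Pool.Agent.Helper45.U4.St1

/-!
# Project U4: a heavy point (module HVY)
-/

set_option autoImplicit false

open Module Classical
open scoped LinearAlgebra.Projectivization

namespace Pool.Agent.Helper32.U4

open Pool.Agent.Helper45.U4 Pool.Agent.Helper53.PB

theorem hHVY (h1 : StHNB) (h2 : StRTH) (h3 : StCON) (h4 : StNBX) (h5 : StTHR) : StHVY := by
  intro F V _ _ _ _ _ _ φ f hs hsup hpos htot
  by_contra hcon
  push Not at hcon
  obtain ⟨hA, hB, hC⟩ := h2 φ f hs hsup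
  have hnn : ∀ (U : Submodule F V) (N : Nb φ.toPolar U Bool) (p : Bool × ℙ F (Dual F U)),
      0 ≤ tf f (N.nb p) - 1 := by
    intro U N p
    have := hpos _ (N.gen p)
    omega
  have hlow : ∀ X : ℙ F V, φ.Sing X.rep → ∃ U, φ.toPolar.Gen U ∧ X.rep ∈ U ∧ tf f U = 1 := by
    intro X hX
    obtain ⟨U, hU, hXU, hlt⟩ := hcon X hX
    have := hpos U hU
    exact ⟨U, hU, hXU, by omega⟩
  have ha : ∀ X : ℙ F V, φ.Sing X.rep →
      0 ≤ s3 φ.toPolar f X ∧ s3 φ.toPolar f X ≤ ∑ y, f y - 33 := by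
    intro X hX
    obtain ⟨U, hU, hXU, hU1⟩ := hlow X hX
    obtain ⟨N⟩ := h1 φ 3 hs U hU
    obtain ⟨⟨hs1, _⟩, hs2⟩ := hA U hU N
    obtain ⟨hs3, _⟩ := hs2 X hXU
    constructor
    · have h0 : 0 ≤ ∑ p ∈ Finset.univ.filter (fun p => X.rep ∈ N.nb p), (tf f (N.nb p) - 1) :=
        Finset.sum_nonneg fun p _ => hnn U N p
      rw [hs3, hU1] at h0
      linarith
    · have h0 : ∑ p ∈ Finset.univ.filter (fun p => X.rep ∈ N.nb p), (tf f (N.nb p) - 1) ≤
          ∑ p, (tf f (N.nb p) - 1) :=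
        Finset.sum_le_sum_of_subset_of_nonneg (Finset.filter_subset _ _)
          (fun p _ _ => hnn U N p)
      rw [hs3, hs1, hU1] at h0
      linarith
  have hc : ∀ W0, φ.toPolar.Gen W0 → 2 ≤ tf f W0 → ∀ X : ℙ F V, X.rep ∈ W0 →
      1 ≤ s3 φ.toPolar f X := by
    intro W0 hW0 hW2 X hX
    have hXs : φ.Sing X.rep := hW0.1.1 _ hX
    by_contra hlt
    have h0 : s3 φ.toPolar f X = 0 := by
      have := (ha X hXs).1
      omega
    obtain ⟨U, hU, hXU, hU1⟩ := hlow X hXs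
    have key := h3 φ 3 hs (Submodule.span F {X.rep}) (fun W => tf f W = 1) (by
      intro U W hU hW hAU hAW hfin hQU
      rw [Submodule.span_singleton_le_iff_mem] at hAU hAW
      obtain ⟨N⟩ := h1 φ 3 hs U hU
      obtain ⟨p, hp⟩ := (h4 φ 3 hs U hU N).1 W hW hfin
      have hs3 := ((hA U hU N).2 X hAU).1
      have hQ : tf f U = 1 := hQU
      rw [h0, hQ, sub_self, add_zero] at hs3
      have h6 := (Finset.sum_eq_zero_iff_of_nonneg (fun p _ => hnn U N p)).1 hs3 p
        (Finset.mem_filter.2 ⟨Finset.mem_univ _, by rw [hp]; exact hAW⟩)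
      rw [hp] at h6
      show tf f W = 1
      linarith) U W0 hU hW0 (by rwa [Submodule.span_singleton_le_iff_mem])
        (by rwa [Submodule.span_singleton_le_iff_mem]) hU1
    have key2 : tf f W0 = 1 := key
    omega
  -- a generator with at least two points
  obtain ⟨W0, hW0, hW2⟩ : ∃ W0, φ.toPolar.Gen W0 ∧ 2 ≤ tf f W0 := by
    by_contra hno
    push Not at hno
    obtain ⟨U, hU, _⟩ := Polar.exists_gen_ge (P := φ.toPolar) (Polar.ts_bot)
    obtain ⟨N⟩ := h1 φ 3 hs U hU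
    have hs1 := (hA U hU N).1.1
    have hz : ∑ p, (tf f (N.nb p) - 1) = 0 := by
      apply Finset.sum_eq_zero
      intro p _
      have h6 := hno _ (N.gen p)
      have h7 := hpos _ (N.gen p)
      omega
    have hU1 : tf f U = 1 := by
      have h6 := hno _ hU
      have h7 := hpos _ hU
      omega
    rw [hz, hU1] at hs1
    rcases htot with h | h <;> rw [h] at hs1 <;> norm_num at hs1
  have hg3 : (pts W0).card = 21 := by
    rw [card_pts, hs.card, hs.gen W0 hW0]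
    decide
  have hsum := hB W0 hW0
  have hle : ∑ X ∈ pts W0, s3 φ.toPolar f X ≤ ∑ X ∈ pts W0, (∑ y, f y - 33) :=
    Finset.sum_le_sum fun X hX => (ha X (hW0.1.1 _ (mem_pts.1 hX))).2
  rw [Finset.sum_const, hg3, nsmul_eq_mul] at hle
  have hr : ∑ y, f y = 35 ∧ tf f W0 = 2 := by
    push_cast at hle
    rw [hsum] at hle
    rcases htot with h | h
    · rw [h] at hle
      exfalso
      omega
    · rw [h] at hle
      exact ⟨h, by omega⟩
  obtain ⟨hr, hW0e⟩ := hr
  obtain ⟨x, hxW, hx1⟩ : ∃ x : ℙ F V, x.rep ∈ W0 ∧ s3 φ.toPolar f x = 1 := by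
    by_contra hno
    push Not at hno
    have h6 : ∑ X ∈ pts W0, (2 : ℤ) ≤ ∑ X ∈ pts W0, s3 φ.toPolar f X := by
      apply Finset.sum_le_sum
      intro X hX
      have h7 := hno X (mem_pts.1 hX)
      have h8 := hc W0 hW0 hW2 X (mem_pts.1 hX)
      omega
    rw [Finset.sum_const, hg3, nsmul_eq_mul, hsum, hr, hW0e] at h6
    norm_num at h6
  obtain ⟨N⟩ := h1 φ 3 hs W0 hW0
  have hs3 := ((hA W0 hW0 N).2 x hxW).1
  rw [hx1, hW0e] at hs3
  obtain ⟨p, hp, hpe⟩ : ∃ p, x.rep ∈ N.nb p ∧ 2 ≤ tf f (N.nb p) := by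
    by_contra hno
    push Not at hno
    have hz : ∑ p ∈ Finset.univ.filter (fun p => x.rep ∈ N.nb p), (tf f (N.nb p) - 1) = 0 := by
      apply Finset.sum_eq_zero
      intro p hp
      have h6 := hno p (Finset.mem_filter.1 hp).2
      have h7 := hpos _ (N.gen p)
      omega
    rw [hz] at hs3
    norm_num at hs3
  set W := N.nb p with hWdef
  have hW : φ.toPolar.Gen W := N.gen p
  have hfin := (h4 φ 3 hs W0 hW0 N).2 p
  rw [← hWdef] at hfin
  have hne : W0 ≠ W := by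
    intro h
    rw [← h, inf_idem, hs.gen W0 hW0] at hfin
    omega
  have hts : φ.toPolar.TS (W0 ⊓ W) := hW0.1.mono inf_le_left
  obtain ⟨U0, U1, U2, hthr⟩ := (h5 φ 3 hs (W0 ⊓ W) hts hfin).1
  have hC' := hC (W0 ⊓ W) U0 U1 U2 hts (by omega) hthr
  have hm5 : (pts (W0 ⊓ W)).card = 5 := by
    rw [card_pts, hs.card, show finrank F (W0 ⊓ W : Submodule F V) = 2 by omega]
    decide
  have e0 := hpos _ hthr.g0
  have e1 := hpos _ hthr.g1
  have e2 := hpos _ hthr.g2
  have hge : 4 ≤ (tf f U0 + tf f U1 + tf f U2) - 1 := by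
    rcases hthr.all W0 hW0 inf_le_left with a | a | a <;>
    rcases hthr.all W hW inf_le_right with b | b | b
    · exact absurd (a.trans b.symm) hne
    · rw [← a, ← b]; omega
    · rw [← a, ← b]; omega
    · rw [← a, ← b]; omega
    · exact absurd (a.trans b.symm) hne
    · rw [← a, ← b]; omega
    · rw [← a, ← b]; omega
    · rw [← a, ← b]; omega
    · exact absurd (a.trans b.symm) hne
  have hxm : x ∈ pts (W0 ⊓ W) := mem_pts.2 ⟨hxW, hp⟩
  have hup : ∑ X ∈ pts (W0 ⊓ W), s3 φ.toPolar f X ≤ 9 := by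
    rw [← Finset.add_sum_erase _ _ hxm, hx1]
    have h6 : ∑ X ∈ (pts (W0 ⊓ W)).erase x, s3 φ.toPolar f X ≤
        ∑ X ∈ (pts (W0 ⊓ W)).erase x, (2 : ℤ) := by
      apply Finset.sum_le_sum
      intro X hX
      have h7 := (ha X (hW0.1.1 _ (mem_pts.1 (Finset.mem_of_mem_erase hX)).1)).2
      rw [hr] at h7
      linarith
    rw [Finset.sum_const, Finset.card_erase_of_mem hxm, hm5, nsmul_eq_mul] at h6
    norm_num at h6
    linarith
  rw [hC', hr] at hup
  omega

end Pool.Agent.Helper32.U4
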